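import Mathlib

/-!
# Rational curves through a point of a cubic surface in normal form

Helper file for `MP_4f7796_ag`.  The cubic surface is
`x w² + w q(x,y,z) + c(x,y,z) = 0` and the point is `(0,0,0,1)`.
-/

namespace Pool.Agent.H241.CubicNF

open Polynomial

universe u

/-! ### The normal form -/

/-- Coefficients of a cubic form
`x w² + w (l0 x² + l1 xy + l2 xz + al y² + be yz + ka z²) + (cubic form in x,y,z)`. -/
structure Co (S : Type*) where
  (l0 l1 l2 al be ka : S)
  (a0 a1 a2 a3 a4 a5 : S)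
  (k0 k1 k2 k3 : S)

variable {S S' : Type*} [CommRing S] [CommRing S']

/-- apply a map to the coefficients -/
def Co.map (c : Co S) (f : S → S') : Co S' where
  l0 := f c.l0
  l1 := f c.l1
  l2 := f c.l2
  al := f c.al
  be := f c.be
  ka := f c.ka
  a0 := f c.a0
  a1 := f c.a1
  a2 := f c.a2
  a3 := f c.a3
  a4 := f c.a4
  a5 := f c.a5
  k0 := f c.k0
  k1 := f c.k1
  k2 := f c.k2
  k3 := f c.k3

/-- the cubic form -/
def F (c : Co S) (x y z w : S) : S :=
  x * w ^ 2 + w * (c.l0 * x ^ 2 + c.l1 * x * y + c.l2 * x * z + c.al * y ^ 2 + c.be * y * z +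
    c.ka * z ^ 2) +
  x * (c.a0 * x ^ 2 + c.a1 * x * y + c.a2 * x * z + c.a3 * y ^ 2 + c.a4 * y * z +
    c.a5 * z ^ 2) + c.k0 * y ^ 3 + c.k1 * y ^ 2 * z + c.k2 * y * z ^ 2 + c.k3 * z ^ 3

/-- partial derivatives -/
def Fx (c : Co S) (x y z w : S) : S :=
  w ^ 2 + w * (2 * c.l0 * x + c.l1 * y + c.l2 * z) +
    3 * c.a0 * x ^ 2 + 2 * c.a1 * x * y + 2 * c.a2 * x * z + c.a3 * y ^ 2 + c.a4 * y * z +
    c.a5 * z ^ 2

def Fy (c : Co S) (x y z w : S) : S :=
  w * (c.l1 * x + 2 * c.al * y + c.be * z) + x * (c.a1 * x + 2 * c.a3 * y + c.a4 * z) +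
    3 * c.k0 * y ^ 2 + 2 * c.k1 * y * z + c.k2 * z ^ 2

def Fz (c : Co S) (x y z w : S) : S :=
  w * (c.l2 * x + c.be * y + 2 * c.ka * z) + x * (c.a2 * x + c.a4 * y + 2 * c.a5 * z) +
    c.k1 * y ^ 2 + 2 * c.k2 * y * z + 3 * c.k3 * z ^ 2

def Fw (c : Co S) (x y z w : S) : S :=
  2 * x * w + (c.l0 * x ^ 2 + c.l1 * x * y + c.l2 * x * z + c.al * y ^ 2 + c.be * y * z +
    c.ka * z ^ 2)

/-- `∇F(u) · v` -/
def A (c : Co S) (x y z w x' y' z' w' : S) : S :=
  Fx c x y z w * x' + Fy c x y z w * y' + Fz c x y z w * z' + Fw c x y z w * w'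

lemma expand (c : Co S) (x y z w x' y' z' w' s t : S) :
    F c (s * x + t * x') (s * y + t * y') (s * z + t * z') (s * w + t * w') =
      s ^ 3 * F c x y z w + s ^ 2 * t * A c x y z w x' y' z' w' +
      s * t ^ 2 * A c x' y' z' w' x y z w + t ^ 3 * F c x' y' z' w' := by
  unfold F A Fx Fy Fz Fw
  ring

/-- the third point on the line through two points -/
lemma third (c : Co S) {x y z w x' y' z' w' : S} (h : F c x y z w = 0)
    (h' : F c x' y' z' w' = 0) {a b : S} (ha : a = A c x y z w x' y' z' w')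
    (hb : b = A c x' y' z' w' x y z w) :
    F c (b * x - a * x') (b * y - a * y') (b * z - a * z') (b * w - a * w') = 0 := by
  have := expand c x y z w x' y' z' w' b (-a)
  rw [h, h', ← ha, ← hb] at this
  simp only [sub_eq_add_neg, ← neg_mul]
  rw [this]
  ring

/-- the third point on a tangent line -/
lemma tang (c : Co S) {x y z w x' y' z' w' : S} (h : F c x y z w = 0)
    (h0 : A c x y z w x' y' z' w' = 0) {a b : S} (ha : a = A c x' y' z' w' x y z w)
    (hb : b = F c x' y' z' w') :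
    F c (b * x - a * x') (b * y - a * y') (b * z - a * z') (b * w - a * w') = 0 := by
  have := expand c x y z w x' y' z' w' b (-a)
  rw [h, h0, ← ha, ← hb] at this
  simp only [sub_eq_add_neg, ← neg_mul]
  rw [this]
  ring

lemma F_smul (c : Co S) (s x y z w : S) :
    F c (s * x) (s * y) (s * z) (s * w) = s ^ 3 * F c x y z w := by
  unfold F
  ring

/-- the third point on the line through `(0,0,0,1)` -/
lemma refl (c : Co S) (x y z w : S) :
    F c (x * x) (x * y) (x * z) (- (c.l0 * x ^ 2 + c.l1 * x * y + c.l2 * x * z + c.al * y ^ 2 +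
      c.be * y * z + c.ka * z ^ 2) - x * w) = x ^ 3 * F c x y z w := by
  unfold F
  ring

/-- There is a rational curve over `K` on the surface through `(0,0,0,1)`. -/
def Good {K : Type u} [Field K] (c : Co K) : Prop :=
  ∃ f0 f1 f2 f3 : K[X], F (c.map C) f0 f1 f2 f3 = 0 ∧ (f0 ≠ 0 ∨ f1 ≠ 0 ∨ f2 ≠ 0) ∧
    ∃ θ : AlgebraicClosure K, aeval θ f0 = 0 ∧ aeval θ f1 = 0 ∧ aeval θ f2 = 0 ∧ aeval θ f3 ≠ 0

section cases

variable {K : Type u} [Field K]

/-- a line -/
lemma good_line (c : Co K) (y z : K) (hyz : y ≠ 0 ∨ z ≠ 0)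
    (h1 : c.al * y ^ 2 + c.be * y * z + c.ka * z ^ 2 = 0)
    (h2 : c.k0 * y ^ 3 + c.k1 * y ^ 2 * z + c.k2 * y * z ^ 2 + c.k3 * z ^ 3 = 0) : Good c := by
  refine ⟨0, C y * X, C z * X, 1, ?_, ?_, 0, by simp, by simp, by simp, by simp⟩
  · have h1' := congrArg (C : K → K[X]) h1
    have h2' := congrArg (C : K → K[X]) h2
    simp only [C_add, C_mul, C_pow, C_0] at h1' h2'
    unfold F Co.map
    simp only
    linear_combination (X : K[X]) ^ 2 * h1' + X ^ 3 * h2'
  · rcases hyz with h | h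
    · right; left
      simp [h]
    · right; right
      simp [h]

/-- `T_x ∩ X` is an irreducible cubic curve, singular at `x`; a branch at `(1 : θ)`. -/
lemma good_cubic (c : Co K) (hne : c.al ≠ 0 ∨ c.be ≠ 0 ∨ c.ka ≠ 0) (θ : AlgebraicClosure K)
    (h1 : algebraMap K (AlgebraicClosure K) c.al + algebraMap K (AlgebraicClosure K) c.be * θ +
      algebraMap K (AlgebraicClosure K) c.ka * θ ^ 2 = 0)
    (h2 : algebraMap K (AlgebraicClosure K) c.k0 + algebraMap K (AlgebraicClosure K) c.k1 * θ +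
      algebraMap K (AlgebraicClosure K) c.k2 * θ ^ 2 +
      algebraMap K (AlgebraicClosure K) c.k3 * θ ^ 3 ≠ 0) : Good c := by
  set q : K[X] := C c.al + C c.be * X + C c.ka * X ^ 2 with hq
  set k : K[X] := C c.k0 + C c.k1 * X + C c.k2 * X ^ 2 + C c.k3 * X ^ 3 with hk
  have hq0 : aeval θ q = 0 := by
    rw [hq]; simpa using h1
  have hk0 : aeval θ k ≠ 0 := by
    rw [hk]; simpa using h2
  have hqne : q ≠ 0 := by
    intro h0
    have e0 := congrArg (fun p => Polynomial.coeff p 0) h0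
    have e1 := congrArg (fun p => Polynomial.coeff p 1) h0
    have e2 := congrArg (fun p => Polynomial.coeff p 2) h0
    simp [hq, coeff_X, coeff_C] at e0 e1 e2
    rcases hne with h | h | h
    · exact h e0
    · exact h e1
    · exact h e2
  refine ⟨0, q, X * q, -k, ?_, Or.inr (Or.inl hqne), θ, by simp, hq0, by simp [hq0], by simpa using hk0⟩
  unfold F Co.map
  simp only
  rw [hq, hk]
  ring

/-- the branch `(0 : 1)` -/
lemma good_cubic' (c : Co K) (hka : c.ka = 0) (hne : c.al ≠ 0 ∨ c.be ≠ 0) (h3 : c.k3 ≠ 0) :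
    Good c := by
  set q : K[X] := C c.al * X ^ 2 + C c.be * X with hq
  set k : K[X] := C c.k0 * X ^ 3 + C c.k1 * X ^ 2 + C c.k2 * X + C c.k3 with hk
  have hqne : q ≠ 0 := by
    intro h0
    have e1 := congrArg (fun p => Polynomial.coeff p 1) h0
    have e2 := congrArg (fun p => Polynomial.coeff p 2) h0
    simp [hq] at e1 e2
    rcases hne with h | h
    · exact h e2
    · exact h e1
  refine ⟨0, X * q, q, -k, ?_, Or.inr (Or.inr hqne), 0, by simp, by simp [hq], by simp [hq],
    by simpa [hk] using h3⟩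
  unfold F Co.map
  simp only
  rw [hq, hk, hka]
  simp only [C_0]
  ring

/-- a nonzero polynomial does not vanish somewhere -/
lemma exists_aeval_ne {p : K[X]} (hp : p ≠ 0) : ∃ θ : AlgebraicClosure K, aeval θ p ≠ 0 := by
  by_contra hcon
  push Not at hcon
  apply hp
  have h1 : p.map (algebraMap K (AlgebraicClosure K)) = 0 := by
    apply Polynomial.funext
    intro r
    rw [eval_map_algebraMap, hcon r, eval_zero]
  exact (Polynomial.map_eq_zero _).1 h1

/-- the case of two conjugate lines through the point, in shifted coordinates -/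
lemma good_two (c : Co K) (h0 : c.k0 = 0) (h1 : c.k1 = 0) (h2 : c.k2 = 0) (h3 : c.k3 = 0)
    (haniso : ∀ y z : K, c.al * y ^ 2 + c.be * y * z + c.ka * z ^ 2 = 0 → y = 0 ∧ z = 0)
    (ρ : AlgebraicClosure K)
    (hρ : algebraMap K (AlgebraicClosure K) c.al + algebraMap K (AlgebraicClosure K) c.be * ρ +
      algebraMap K (AlgebraicClosure K) c.ka * ρ ^ 2 = 0)
    (hsep : algebraMap K (AlgebraicClosure K) c.be +
      2 * algebraMap K (AlgebraicClosure K) c.ka * ρ ≠ 0)
    (hQ : algebraMap K (AlgebraicClosure K) c.a3 + algebraMap K (AlgebraicClosure K) c.a4 * ρ +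
      algebraMap K (AlgebraicClosure K) c.a5 * ρ ^ 2 ≠ 0) : Good c := by
  obtain ⟨l0, l1, l2, al, be, ka, a0, a1, a2, a3, a4, a5, k0, k1, k2, k3⟩ := c
  simp only at h0 h1 h2 h3 haniso hρ hsep hQ
  subst h0 h1 h2 h3
  -- the minors
  obtain ⟨m01, hm01⟩ : ∃ m, m = al * a4 - be * a3 := ⟨_, rfl⟩
  obtain ⟨m02, hm02⟩ : ∃ m, m = al * a5 - ka * a3 := ⟨_, rfl⟩
  obtain ⟨m12, hm12⟩ : ∃ m, m = be * a5 - ka * a4 := ⟨_, rfl⟩
  have hka : ka ≠ 0 := by
    intro h
    have := (haniso 0 1 (by rw [h]; ring)).2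
    exact one_ne_zero this
  set φ : K[X] := C m01 + 2 * C m02 * X + C m12 * X ^ 2 with hφ
  set N : K[X] := C al * (C m02 + C m12 * X) ^ 2 +
    C be * (C m02 + C m12 * X) * (- C m01 - C m02 * X) + C ka * (- C m01 - C m02 * X) ^ 2 with hN
  have hφ0 : φ ≠ 0 := by
    intro h
    have h5 : aeval ρ φ = 0 := by rw [h]; simp
    rw [hφ, hm01, hm02, hm12] at h5
    simp only [map_add, map_mul, map_pow, aeval_C, aeval_X, map_sub, map_ofNat] at h5
    have h6 : (algebraMap K (AlgebraicClosure K) a3 + algebraMap K (AlgebraicClosure K) a4 * ρ +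
      algebraMap K (AlgebraicClosure K) a5 * ρ ^ 2) * (algebraMap K (AlgebraicClosure K) be +
      2 * algebraMap K (AlgebraicClosure K) ka * ρ) = 0 := by
      linear_combination - h5 + (algebraMap K (AlgebraicClosure K) a4 +
        2 * algebraMap K (AlgebraicClosure K) a5 * ρ) * hρ
    rcases mul_eq_zero.1 h6 with h7 | h7
    · exact hQ h7
    · exact hsep h7
  have hN0 : N ≠ 0 := by
    intro h
    have e0 := congrArg (eval 0) h
    rw [hN] at e0
    simp only [eval_add, eval_mul, eval_pow, eval_C, eval_X, eval_sub, eval_neg, eval_zero,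
      mul_zero, add_zero, sub_zero] at e0
    have e1 := haniso m02 (-m01) e0
    have e2 : m02 = 0 := e1.1
    have e3 : m01 = 0 := neg_eq_zero.1 e1.2
    have e4 := congrArg (eval 1) h
    rw [hN, e2, e3] at e4
    simp only [eval_add, eval_mul, eval_pow, eval_C, eval_X, eval_zero,
      mul_one, C_0, zero_add, neg_zero, sub_zero, mul_zero, zero_mul] at e4
    have e5 := haniso m12 0 (by linear_combination e4)
    have e6 : m12 = 0 := e5.1
    have f1 := congrArg (algebraMap K (AlgebraicClosure K)) (hm02.symm.trans e2)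
    have f2 := congrArg (algebraMap K (AlgebraicClosure K)) (hm12.symm.trans e6)
    simp only [map_sub, map_mul, map_zero] at f1 f2
    have f3 : algebraMap K (AlgebraicClosure K) ka *
      (algebraMap K (AlgebraicClosure K) a3 + algebraMap K (AlgebraicClosure K) a4 * ρ +
      algebraMap K (AlgebraicClosure K) a5 * ρ ^ 2) = 0 := by
      linear_combination - f1 - ρ * f2 + algebraMap K (AlgebraicClosure K) a5 * hρ
    rcases mul_eq_zero.1 f3 with f4 | f4
    · exact hka ((map_eq_zero _).1 f4)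
    · exact hQ f4
  obtain ⟨θ, hθ⟩ := exists_aeval_ne (mul_ne_zero hN0 hφ0)
  rw [map_mul] at hθ
  have hNθ := left_ne_zero_of_mul hθ
  have hφθ := right_ne_zero_of_mul hθ
  have hint : IsIntegral K θ := Algebra.IsIntegral.isIntegral θ
  obtain ⟨s, hs0, hsθ⟩ : ∃ s : K[X], s ≠ 0 ∧ aeval θ s = 0 :=
    ⟨minpoly K θ, minpoly.ne_zero hint, minpoly.aeval K θ⟩
  -- the polynomials
  obtain ⟨q, hq⟩ : ∃ q : K[X], q = C al + C be * X + C ka * X ^ 2 := ⟨_, rfl⟩
  obtain ⟨Q, hQd⟩ : ∃ Q : K[X], Q = C a3 + C a4 * X + C a5 * X ^ 2 := ⟨_, rfl⟩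
  obtain ⟨xv, hxv⟩ : ∃ x : K[X], x = s * q := ⟨_, rfl⟩
  obtain ⟨wv, hwv⟩ : ∃ x : K[X], x = - s * Q := ⟨_, rfl⟩
  obtain ⟨p1, hp1⟩ : ∃ p : K[X], p = - Q * C ka + q * (wv ^ 2 + wv * (C l0 * xv + C l2) +
    C a0 * xv ^ 2 + C a2 * xv + C a5) := ⟨_, rfl⟩
  obtain ⟨p2, hp2⟩ : ∃ p : K[X], p = - Q * (C be + 2 * C ka * X) + q * ((wv * C l1 + C a1 * xv
    + C a4) + X * (wv * C l2 + C a2 * xv + 2 * C a5)) := ⟨_, rfl⟩
  set c : Co K[X] := (Co.map (⟨l0, l1, l2, al, be, ka, a0, a1, a2, a3, a4, a5, 0, 0, 0, 0⟩ : Co K)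
    C) with hc
  have hq0 : q ≠ 0 := by
    intro h
    have := congrArg (fun p => Polynomial.coeff p 2) h
    rw [hq] at this
    simp at this
    exact hka this
  have hV : F c xv 0 1 wv = s * p1 := by
    rw [hp1, hxv, hwv, hc]
    unfold F Co.map
    simp only [C_0]
    ring
  have hA : A c xv 0 1 wv 0 1 X 0 = s * p2 := by
    rw [hp2, hxv, hwv, hc]
    unfold A Fx Fy Fz Fw Co.map
    simp only [C_0]
    ring
  have hP : F c 0 1 X 0 = 0 := by
    rw [hc]
    unfold F Co.map
    simp only [C_0]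
    ring
  have hA' : A c 0 1 X 0 xv 0 1 wv = 0 := by
    rw [hxv, hwv, hc, hq, hQd]
    unfold A Fx Fy Fz Fw Co.map
    simp only [C_0]
    ring
  have hR : F c (- p2 * xv) p1 (p1 * X - p2) (- p2 * wv) = 0 := by
    have h5 := tang c hP hA' hA.symm hV.symm
    have h6 : F c (s * p1 * 0 - s * p2 * xv) (s * p1 * 1 - s * p2 * 0) (s * p1 * X - s * p2 * 1)
        (s * p1 * 0 - s * p2 * wv) = s ^ 3 * F c (- p2 * xv) p1 (p1 * X - p2) (- p2 * wv) := by
      rw [← F_smul]
      congr 1 <;> ring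
    rw [h6] at h5
    exact (mul_eq_zero.1 h5).resolve_left (pow_ne_zero 3 hs0)
  have hxθ : aeval θ xv = 0 := by rw [hxv, map_mul, hsθ, zero_mul]
  have hwθ : aeval θ wv = 0 := by rw [hwv, map_mul, map_neg, hsθ, neg_zero, zero_mul]
  have hqθ : aeval θ q = algebraMap K (AlgebraicClosure K) al +
      algebraMap K (AlgebraicClosure K) be * θ + algebraMap K (AlgebraicClosure K) ka * θ ^ 2 := by
    rw [hq]; simp
  have hQθ : aeval θ Q = algebraMap K (AlgebraicClosure K) a3 +
      algebraMap K (AlgebraicClosure K) a4 * θ + algebraMap K (AlgebraicClosure K) a5 * θ ^ 2 := by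
    rw [hQd]; simp
  have hp1θ : aeval θ p1 = algebraMap K (AlgebraicClosure K) m02 +
      algebraMap K (AlgebraicClosure K) m12 * θ := by
    rw [hp1]
    simp only [map_add, map_mul, map_pow, map_neg, hxθ, hwθ, hqθ, hQθ, aeval_C, hm02, hm12,
      map_sub]
    ring
  have hp2θ : aeval θ p2 = aeval θ φ := by
    rw [hp2, hφ]
    simp only [map_add, map_mul, map_pow, map_neg, hxθ, hwθ, hqθ, hQθ, aeval_C, hm02, hm12, hm01,
      map_sub, aeval_X, map_ofNat]
    ring
  have hp20 : p2 ≠ 0 := by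
    intro h
    rw [h, map_zero] at hp2θ
    exact hφθ hp2θ.symm
  refine ⟨(- p2 * xv) * (- p2 * xv), (- p2 * xv) * p1, (- p2 * xv) * (p1 * X - p2), _,
    (refl c _ _ _ _).trans (by rw [hR, mul_zero]), Or.inl ?_, θ, ?_, ?_, ?_, ?_⟩
  · have : - p2 * xv ≠ 0 := by
      rw [hxv]
      exact mul_ne_zero (neg_ne_zero.2 hp20) (mul_ne_zero hs0 hq0)
    exact mul_ne_zero this this
  · simp [hxθ]
  · simp [hxθ]
  · simp [hxθ]
  · have h7 : aeval θ φ = algebraMap K (AlgebraicClosure K) m01 +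
      2 * algebraMap K (AlgebraicClosure K) m02 * θ +
      algebraMap K (AlgebraicClosure K) m12 * θ ^ 2 := by
      rw [hφ]
      simp only [map_add, map_mul, map_pow, aeval_C, aeval_X, map_ofNat]
    intro h9
    apply hNθ
    rw [hc] at h9
    unfold Co.map at h9
    simp only [map_add, map_mul, map_pow, map_neg, map_sub, aeval_C, aeval_X, hxθ, hwθ, hp1θ,
      hp2θ, h7] at h9
    rw [hN]
    simp only [map_add, map_mul, map_pow, map_neg, map_sub, aeval_C, aeval_X]
    linear_combination - h9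

/-- the coefficients after the shift `w ↦ w - m1 y - m2 z` -/
def shift (c : Co K) (m1 m2 : K) : Co K where
  l0 := c.l0
  l1 := c.l1 - 2 * m1
  l2 := c.l2 - 2 * m2
  al := c.al
  be := c.be
  ka := c.ka
  a0 := c.a0
  a1 := c.a1 - c.l0 * m1
  a2 := c.a2 - c.l0 * m2
  a3 := c.a3 - c.l1 * m1 + m1 ^ 2
  a4 := c.a4 - c.l1 * m2 - c.l2 * m1 + 2 * m1 * m2
  a5 := c.a5 - c.l2 * m2 + m2 ^ 2
  k0 := 0
  k1 := 0
  k2 := 0
  k3 := 0

lemma good_shift (c : Co K) (m1 m2 : K) (h0 : c.k0 = c.al * m1)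
    (h1 : c.k1 = c.al * m2 + c.be * m1) (h2 : c.k2 = c.be * m2 + c.ka * m1)
    (h3 : c.k3 = c.ka * m2) (h : Good (shift c m1 m2)) : Good c := by
  obtain ⟨f0, f1, f2, f3, hF, hne, θ, t0, t1, t2, t3⟩ := h
  refine ⟨f0, f1, f2, f3 - C m1 * f1 - C m2 * f2, ?_, hne, θ, t0, t1, t2, ?_⟩
  · rw [← hF]
    unfold F Co.map shift
    simp only [h0, h1, h2, h3, C_add, C_mul, C_sub, C_pow, C_0, C_ofNat]
    ring
  · simpa [t1, t2] using t3

/-- two conjugate lines through the point -/
lemma good_a [Finite K] (c : Co K) (hka : c.ka ≠ 0) (ρ : AlgebraicClosure K)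
    (hρ : algebraMap K (AlgebraicClosure K) c.al + algebraMap K (AlgebraicClosure K) c.be * ρ +
      algebraMap K (AlgebraicClosure K) c.ka * ρ ^ 2 = 0)
    (hρK : ∀ t : K, algebraMap K (AlgebraicClosure K) t ≠ ρ)
    (hk : algebraMap K (AlgebraicClosure K) c.k0 + algebraMap K (AlgebraicClosure K) c.k1 * ρ +
      algebraMap K (AlgebraicClosure K) c.k2 * ρ ^ 2 +
      algebraMap K (AlgebraicClosure K) c.k3 * ρ ^ 3 = 0)
    (hs : ∀ w : AlgebraicClosure K, ¬ (F (c.map (algebraMap K (AlgebraicClosure K))) 0 1 ρ w = 0 ∧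
      Fx (c.map (algebraMap K (AlgebraicClosure K))) 0 1 ρ w = 0 ∧
      Fy (c.map (algebraMap K (AlgebraicClosure K))) 0 1 ρ w = 0 ∧
      Fz (c.map (algebraMap K (AlgebraicClosure K))) 0 1 ρ w = 0 ∧
      Fw (c.map (algebraMap K (AlgebraicClosure K))) 0 1 ρ w = 0)) : Good c := by
  -- a linear relation over `K` satisfied by `ρ` is trivial
  have hlin : ∀ e0 e1 : K, algebraMap K (AlgebraicClosure K) e0 +
      algebraMap K (AlgebraicClosure K) e1 * ρ = 0 → e0 = 0 ∧ e1 = 0 := by
    intro e0 e1 h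
    have he1 : e1 = 0 := by
      by_contra hne
      apply hρK (- e0 / e1)
      have hne' : algebraMap K (AlgebraicClosure K) e1 ≠ 0 := by
        intro h0; exact hne ((map_eq_zero _).1 h0)
      rw [map_div₀, map_neg]
      field_simp
      linear_combination - h
    subst he1
    rw [map_zero, zero_mul, add_zero] at h
    exact ⟨(map_eq_zero _).1 h, rfl⟩
  -- divisibility
  obtain ⟨m2, hm2⟩ : ∃ m, m = c.k3 / c.ka := ⟨_, rfl⟩
  obtain ⟨m1, hm1⟩ : ∃ m, m = (c.k2 - c.be * m2) / c.ka := ⟨_, rfl⟩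
  have h3 : c.k3 = c.ka * m2 := by rw [hm2]; field_simp
  have h2 : c.k2 = c.be * m2 + c.ka * m1 := by rw [hm1]; field_simp; ring
  have h01 := hlin (c.k0 - c.al * m1) (c.k1 - c.al * m2 - c.be * m1) (by
    have h2' := congrArg (algebraMap K (AlgebraicClosure K)) h2
    have h3' := congrArg (algebraMap K (AlgebraicClosure K)) h3
    simp only [map_add, map_mul, map_sub] at h2' h3' ⊢
    linear_combination hk - (algebraMap K (AlgebraicClosure K) m1 +
      algebraMap K (AlgebraicClosure K) m2 * ρ) * hρ - ρ ^ 2 * h2' - ρ ^ 3 * h3')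
  have h0 : c.k0 = c.al * m1 := sub_eq_zero.1 h01.1
  have h1 : c.k1 = c.al * m2 + c.be * m1 := by linear_combination h01.2
  apply good_shift c m1 m2 h0 h1 h2 h3
  have haniso : ∀ y z : K, c.al * y ^ 2 + c.be * y * z + c.ka * z ^ 2 = 0 → y = 0 ∧ z = 0 := by
    intro y z hyz
    by_cases hy : y = 0
    · subst hy
      refine ⟨rfl, ?_⟩
      have : c.ka * z ^ 2 = 0 := by linear_combination hyz
      exact pow_eq_zero_iff (two_ne_zero) |>.1 ((mul_eq_zero.1 this).resolve_left hka)
    · exfalso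
      -- `t = z / y` is a root, so is `-be/ka - t`
      obtain ⟨t, ht⟩ : ∃ t, t = z / y := ⟨_, rfl⟩
      have hzt : z = t * y := by rw [ht]; field_simp
      have htr : c.al + c.be * t + c.ka * t ^ 2 = 0 := by
        have : y ^ 2 * (c.al + c.be * t + c.ka * t ^ 2) = 0 := by
          rw [hzt] at hyz
          linear_combination hyz
        exact (mul_eq_zero.1 this).resolve_left (pow_ne_zero 2 hy)
      have htr' := congrArg (algebraMap K (AlgebraicClosure K)) htr
      simp only [map_add, map_mul, map_pow, map_zero] at htr'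
      have h5 : (ρ - algebraMap K (AlgebraicClosure K) t) *
          (algebraMap K (AlgebraicClosure K) (c.be + c.ka * t) +
            algebraMap K (AlgebraicClosure K) c.ka * ρ) = 0 := by
        simp only [map_add, map_mul]
        linear_combination hρ - htr'
      rcases mul_eq_zero.1 h5 with h6 | h6
      · exact hρK t (sub_eq_zero.1 h6).symm
      · exact hka (hlin _ _ h6).2
  refine good_two (shift c m1 m2) rfl rfl rfl rfl haniso ρ hρ ?_ ?_
  · -- separability
    intro hsep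
    have hsep' : algebraMap K (AlgebraicClosure K) c.be +
      2 * algebraMap K (AlgebraicClosure K) c.ka * ρ = 0 := hsep
    by_cases h2K : (2 : K) = 0
    · have h2' : (2 : AlgebraicClosure K) = 0 := by
        have := congrArg (algebraMap K (AlgebraicClosure K)) h2K
        rwa [map_ofNat, map_zero] at this
      have hbe : c.be = 0 := by
        rw [h2', zero_mul, zero_mul, add_zero] at hsep'
        exact (map_eq_zero _).1 hsep'
      -- square root in `K`
      have hchar : ringChar K = 2 := by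
        have hdvd : ringChar K ∣ 2 := (ringChar.spec K 2).1 (by exact_mod_cast h2K)
        rcases (Nat.dvd_prime Nat.prime_two).1 hdvd with h | h
        · exact absurd h (CharP.ringChar_ne_one)
        · exact h
      obtain ⟨r, hr⟩ := FiniteField.isSquare_of_char_two hchar (c.al / c.ka)
      have hr' : c.al = c.ka * (r * r) := by rw [← hr]; field_simp
      have hr'' := congrArg (algebraMap K (AlgebraicClosure K)) hr'
      simp only [map_mul] at hr''
      have h6 : algebraMap K (AlgebraicClosure K) c.ka *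
          (ρ - algebraMap K (AlgebraicClosure K) r) ^ 2 = 0 := by
        rw [hbe, map_zero, zero_mul, add_zero] at hρ
        linear_combination hρ - hr'' - (algebraMap K (AlgebraicClosure K) c.ka * ρ *
          algebraMap K (AlgebraicClosure K) r) * h2'
      have h7 : algebraMap K (AlgebraicClosure K) c.ka ≠ 0 := fun h => hka ((map_eq_zero _).1 h)
      have h8 := (mul_eq_zero.1 h6).resolve_left h7
      exact hρK r (sub_eq_zero.1 (pow_eq_zero_iff two_ne_zero |>.1 h8)).symm
    · have h9 := hlin c.be (2 * c.ka) (by rw [map_mul, map_ofNat]; exact hsep')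
      rcases mul_eq_zero.1 h9.2 with h | h
      · exact h2K h
      · exact hka h
  · -- smoothness
    intro hQ
    apply hs (- algebraMap K (AlgebraicClosure K) m1 - algebraMap K (AlgebraicClosure K) m2 * ρ)
    have h0' := congrArg (algebraMap K (AlgebraicClosure K)) h0
    have h1' := congrArg (algebraMap K (AlgebraicClosure K)) h1
    have h2' := congrArg (algebraMap K (AlgebraicClosure K)) h2
    have h3' := congrArg (algebraMap K (AlgebraicClosure K)) h3
    unfold shift at hQ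
    simp only [map_add, map_mul, map_sub, map_pow, map_ofNat] at h0' h1' h2' h3' hQ
    unfold F Fx Fy Fz Fw Co.map
    simp only
    refine ⟨?_, ?_, ?_, ?_, ?_⟩
    · linear_combination h0' + ρ * h1' + ρ ^ 2 * h2' + ρ ^ 3 * h3'
    · linear_combination hQ
    · linear_combination 3 * h0' + 2 * ρ * h1' + ρ ^ 2 * h2' +
        algebraMap K (AlgebraicClosure K) m1 * hρ
    · linear_combination h1' + 2 * ρ * h2' + 3 * ρ ^ 2 * h3' +
        algebraMap K (AlgebraicClosure K) m2 * hρ
    · linear_combination hρ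

end cases

/-! ### Three lines through the point: the tangent curve at a conjugate pair of points -/

section threelines

/-- the form has no `w y²`, `w yz`, `w z²` terms -/
def Flat (c : Co S) : Prop := c.al = 0 ∧ c.be = 0 ∧ c.ka = 0

def v1 (ω ω' : S) : S := ω - ω'

def v2 (u ω ω' : S) : S := (ω - ω') * u * ω

def v3 (c : Co S) (T u ω : S) : S :=
  - ((c.l1 * ω + c.a1 + 2 * c.a3 * T + 3 * c.k0 * T ^ 2) +
    (c.l2 * ω + c.a2 + c.a4 * T + c.k1 * T ^ 2) * u * ω)

/-- `F(v)` -/
def bv (c : Co S) (T u ω ω' : S) : S := F c 0 (v1 ω ω') (v2 u ω ω') (v3 c T u ω)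

/-- `∇F(v)·p` -/
def av (c : Co S) (T u ω ω' : S) : S :=
  A c 0 (v1 ω ω') (v2 u ω ω') (v3 c T u ω) 1 T 0 ω

def r0 (c : Co S) (T u ω ω' : S) : S := bv c T u ω ω' * 1 - av c T u ω ω' * 0
def r1 (c : Co S) (T u ω ω' : S) : S := bv c T u ω ω' * T - av c T u ω ω' * v1 ω ω'
def r2 (c : Co S) (T u ω ω' : S) : S := bv c T u ω ω' * 0 - av c T u ω ω' * v2 u ω ω'
def r3 (c : Co S) (T u ω ω' : S) : S := bv c T u ω ω' * ω - av c T u ω ω' * v3 c T u ω

/-- relations of the two points `(1, T, 0, ω)`, `(1, T, 0, ω')` -/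
structure Rel (c : Co S) (T ω ω' : S) : Prop where
  flat : Flat c
  sum : c.l0 + c.l1 * T = - ω - ω'
  prod : c.a0 + c.a1 * T + c.a3 * T ^ 2 + c.k0 * T ^ 3 = ω * ω'

lemma Rel.symm {c : Co S} {T ω ω' : S} (h : Rel c T ω ω') : Rel c T ω' ω :=
  ⟨h.flat, by rw [h.sum]; ring, by rw [h.prod]; ring⟩

lemma F_r {c : Co S} {T ω ω' : S} (h : Rel c T ω ω') (u : S) :
    F c (r0 c T u ω ω') (r1 c T u ω ω') (r2 c T u ω ω') (r3 c T u ω ω') = 0 := by
  obtain ⟨⟨h1, h2, h3⟩, hs, hp⟩ := h
  refine tang c (x := 1) (y := T) (z := 0) (w := ω) (x' := 0) (y' := v1 ω ω') (z' := v2 u ω ω')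
    (w' := v3 c T u ω) ?_ ?_ rfl rfl
  · unfold F
    rw [h1, h2, h3]
    linear_combination ω * hs + hp
  · unfold A Fx Fy Fz Fw v1 v2 v3
    rw [h1, h2, h3]
    linear_combination (- ((c.l1 * ω + c.a1 + 2 * c.a3 * T + 3 * c.k0 * T ^ 2) +
      (c.l2 * ω + c.a2 + c.a4 * T + c.k1 * T ^ 2) * u * ω)) * hs

/-- `∇F(r')·r` -/
def bb (c : Co S) (T u ω ω' : S) : S :=
  A c (r0 c T u ω' ω) (r1 c T u ω' ω) (r2 c T u ω' ω) (r3 c T u ω' ω)
    (r0 c T u ω ω') (r1 c T u ω ω') (r2 c T u ω ω') (r3 c T u ω ω')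

lemma F_third {c : Co S} {T ω ω' : S} (h : Rel c T ω ω') (u : S) :
    F c (bb c T u ω ω' * r0 c T u ω ω' - bb c T u ω' ω * r0 c T u ω' ω)
      (bb c T u ω ω' * r1 c T u ω ω' - bb c T u ω' ω * r1 c T u ω' ω)
      (bb c T u ω ω' * r2 c T u ω ω' - bb c T u ω' ω * r2 c T u ω' ω)
      (bb c T u ω ω' * r3 c T u ω ω' - bb c T u ω' ω * r3 c T u ω' ω) = 0 :=
  third c (F_r h u) (F_r h.symm u) rfl rfl

/-- naturality -/
lemma map_bb (φ : S →+* S') (c : Co S) (T u ω ω' : S) :
    φ (bb c T u ω ω') = bb (c.map φ) (φ T) (φ u) (φ ω) (φ ω') := by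
  unfold bb r0 r1 r2 r3 bv av F A Fx Fy Fz Fw v1 v2 v3 Co.map
  simp only [map_add, map_mul, map_pow, map_sub, map_neg, map_zero, map_one, map_ofNat]

lemma map_av (φ : S →+* S') (c : Co S) (T u ω ω' : S) :
    φ (av c T u ω ω') = av (c.map φ) (φ T) (φ u) (φ ω) (φ ω') := by
  unfold av A Fx Fy Fz Fw v1 v2 v3 Co.map
  simp only [map_add, map_mul, map_pow, map_sub, map_neg, map_zero, map_one, map_ofNat]

lemma map_r0 (φ : S →+* S') (c : Co S) (T u ω ω' : S) :
    φ (r0 c T u ω ω') = r0 (c.map φ) (φ T) (φ u) (φ ω) (φ ω') := by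
  unfold r0 bv av F A Fx Fy Fz Fw v1 v2 v3 Co.map
  simp only [map_add, map_mul, map_pow, map_sub, map_neg, map_zero, map_one, map_ofNat]

lemma map_r1 (φ : S →+* S') (c : Co S) (T u ω ω' : S) :
    φ (r1 c T u ω ω') = r1 (c.map φ) (φ T) (φ u) (φ ω) (φ ω') := by
  unfold r1 bv av F A Fx Fy Fz Fw v1 v2 v3 Co.map
  simp only [map_add, map_mul, map_pow, map_sub, map_neg, map_zero, map_one, map_ofNat]

lemma map_r2 (φ : S →+* S') (c : Co S) (T u ω ω' : S) :
    φ (r2 c T u ω ω') = r2 (c.map φ) (φ T) (φ u) (φ ω) (φ ω') := by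
  unfold r2 bv av F A Fx Fy Fz Fw v1 v2 v3 Co.map
  simp only [map_add, map_mul, map_pow, map_sub, map_neg, map_zero, map_one, map_ofNat]

lemma map_r3 (φ : S →+* S') (c : Co S) (T u ω ω' : S) :
    φ (r3 c T u ω ω') = r3 (c.map φ) (φ T) (φ u) (φ ω) (φ ω') := by
  unfold r3 bv av F A Fx Fy Fz Fw v1 v2 v3 Co.map
  simp only [map_add, map_mul, map_pow, map_sub, map_neg, map_zero, map_one, map_ofNat]

/-- two points on a line through `(0,0,0,1)` in the plane `z = 0` -/
lemma A_same {c : Co S} (hf : Flat c) {x y w w' : S} (hF : F c x y 0 w = 0)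
    (hsum : w - w' = - (c.l0 * x + c.l1 * y)) :
    A c x y 0 w (-x) (-y) 0 w' = x * (w + w') ^ 2 := by
  obtain ⟨h1, h2, h3⟩ := hf
  have e : A c x y 0 w (-x) (-y) 0 w' = - 3 * F c x y 0 w + Fw c x y 0 w * (w + w') := by
    unfold A Fx Fy Fz Fw F
    ring
  rw [e, hF]
  unfold Fw
  rw [h1, h2, h3]
  linear_combination (x * (w + w')) * hsum

/-- the discriminant and the other polynomials -/
def dis (c : Co S) (T : S) : S :=
  (c.l0 + c.l1 * T) ^ 2 - 4 * (c.a0 + c.a1 * T + c.a3 * T ^ 2 + c.k0 * T ^ 3)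

def as (c : Co S) (T : S) : S :=
  (c.a1 + 2 * c.a3 * T + 3 * c.k0 * T ^ 2) ^ 2 -
    c.l1 * (c.l0 + c.l1 * T) * (c.a1 + 2 * c.a3 * T + 3 * c.k0 * T ^ 2) +
    c.l1 ^ 2 * (c.a0 + c.a1 * T + c.a3 * T ^ 2 + c.k0 * T ^ 3) +
    (c.a3 + 3 * c.k0 * T) * dis c T

def n1 (c : Co S) (T : S) : S :=
  c.k0 * dis c T ^ 2 + as c T * (2 * (c.a1 + 2 * c.a3 * T + 3 * c.k0 * T ^ 2) -
    c.l1 * (c.l0 + c.l1 * T))

lemma dis_eq {c : Co S} {T ω ω' : S} (h : Rel c T ω ω') : dis c T = (ω - ω') ^ 2 := by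
  unfold dis
  rw [h.sum, h.prod]
  ring

lemma av_zero {c : Co S} {T ω ω' : S} (h : Rel c T ω ω') : av c T 0 ω ω' = as c T := by
  unfold as
  rw [dis_eq h, h.sum, h.prod]
  obtain ⟨⟨h1, h2, h3⟩, hs, hp⟩ := h
  unfold av A Fx Fy Fz Fw v1 v2 v3
  rw [h1, h2, h3]
  ring

lemma r0_zero {c : Co S} {T ω ω' : S} (h : Rel c T ω ω') :
    r0 c T 0 ω ω' = c.k0 * (ω - ω') ^ 3 := by
  obtain ⟨⟨h1, h2, h3⟩, hs, hp⟩ := h
  unfold r0 bv F v1 v2 v3
  rw [h1, h2, h3]
  ring

lemma bv_zero {c : Co S} {T ω ω' : S} (h : Rel c T ω ω') :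
    bv c T 0 ω ω' = c.k0 * (ω - ω') ^ 3 := by
  obtain ⟨⟨h1, h2, h3⟩, hs, hp⟩ := h
  unfold bv F v1 v2 v3
  rw [h1, h2, h3]
  ring

lemma r1_zero {c : Co S} {T ω ω' : S} (h : Rel c T ω ω') :
    r1 c T 0 ω ω' = c.k0 * (ω - ω') ^ 3 * T - as c T * (ω - ω') := by
  unfold r1
  rw [av_zero h, bv_zero h]
  rfl

lemma r2_zero (c : Co S) (T ω ω' : S) : r2 c T 0 ω ω' = 0 := by
  unfold r2 v2
  ring

lemma r3_zero {c : Co S} {T ω ω' : S} (h : Rel c T ω ω') :
    r3 c T 0 ω ω' = c.k0 * (ω - ω') ^ 3 * ω +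
      as c T * (c.l1 * ω + c.a1 + 2 * c.a3 * T + 3 * c.k0 * T ^ 2) := by
  unfold r3
  rw [av_zero h, bv_zero h]
  unfold v3
  ring

lemma sum_zero {c : Co S} {T ω ω' : S} (h : Rel c T ω ω') :
    r3 c T 0 ω ω' + r3 c T 0 ω' ω = n1 c T := by
  rw [r3_zero h, r3_zero h.symm]
  unfold n1
  rw [h.sum, dis_eq h]
  ring

lemma bb_zero {c : Co S} {T ω ω' : S} (h : Rel c T ω ω') :
    bb c T 0 ω ω' = - (c.k0 * (ω - ω') ^ 3) * n1 c T ^ 2 := by
  have e0 : r0 c T 0 ω' ω = - r0 c T 0 ω ω' := by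
    rw [r0_zero h, r0_zero h.symm]; ring
  have e1 : r1 c T 0 ω' ω = - r1 c T 0 ω ω' := by
    rw [r1_zero h, r1_zero h.symm]; ring
  have hF := F_r h.symm 0
  rw [r2_zero] at hF
  have hsum : r3 c T 0 ω' ω - r3 c T 0 ω ω' =
      - (c.l0 * r0 c T 0 ω' ω + c.l1 * r1 c T 0 ω' ω) := by
    rw [r3_zero h, r3_zero h.symm, r0_zero h.symm, r1_zero h.symm]
    linear_combination (c.k0 * (ω' - ω) ^ 3) * h.sum
  have h5 := A_same h.flat hF hsum
  unfold bb
  rw [r2_zero, r2_zero]
  rw [e0, e1] at h5 ⊢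
  rw [neg_neg, neg_neg] at h5
  rw [h5, add_comm, sum_zero h, r0_zero h]

end threelines

section quad

open QuadraticAlgebra

lemma star_omega {R : Type*} [CommRing R] (a b : R) :
    star (omega : QuadraticAlgebra R a b) = algebraMap R _ b - omega := by
  ext <;> simp

lemma rel_quad {R : Type*} [CommRing R] {a b : R} (c : Co R) (T : R) (hf : Flat c)
    (hb : c.l0 + c.l1 * T = - b)
    (ha : c.a0 + c.a1 * T + c.a3 * T ^ 2 + c.k0 * T ^ 3 = - a) :
    Rel (c.map (algebraMap R (QuadraticAlgebra R a b))) (algebraMap R _ T)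
      (omega : QuadraticAlgebra R a b) (star omega) := by
  have hb' := congrArg (algebraMap R (QuadraticAlgebra R a b)) hb
  have ha' := congrArg (algebraMap R (QuadraticAlgebra R a b)) ha
  simp only [map_add, map_mul, map_pow, map_neg] at hb' ha'
  refine ⟨⟨?_, ?_, ?_⟩, ?_, ?_⟩
  · show algebraMap R (QuadraticAlgebra R a b) c.al = 0
    rw [hf.1, map_zero]
  · show algebraMap R (QuadraticAlgebra R a b) c.be = 0
    rw [hf.2.1, map_zero]
  · show algebraMap R (QuadraticAlgebra R a b) c.ka = 0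
    rw [hf.2.2, map_zero]
  · rw [star_omega]
    unfold Co.map
    linear_combination hb'
  · rw [star_omega, mul_sub, omega_mul_omega_eq_algebraMap]
    unfold Co.map
    linear_combination ha'

/-- descent of the third point -/
lemma descent {R : Type*} [CommRing R] [IsDomain R] {a b : R} (c : Co R) (T u : R) (hf : Flat c)
    (hb : c.l0 + c.l1 * T = - b)
    (ha : c.a0 + c.a1 * T + c.a3 * T ^ 2 + c.k0 * T ^ 3 = - a) (hd : dis c T ≠ 0)
    {s0 s1 s2 s3 B : QuadraticAlgebra R a b}
    (hB : B = bb (c.map (algebraMap R (QuadraticAlgebra R a b))) (algebraMap R _ T)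
      (algebraMap R _ u) omega (star omega))
    (h0 : s0 = B * r0 (c.map (algebraMap R (QuadraticAlgebra R a b))) (algebraMap R _ T)
      (algebraMap R _ u) omega (star omega))
    (h1 : s1 = B * r1 (c.map (algebraMap R (QuadraticAlgebra R a b))) (algebraMap R _ T)
      (algebraMap R _ u) omega (star omega))
    (h2 : s2 = B * r2 (c.map (algebraMap R (QuadraticAlgebra R a b))) (algebraMap R _ T)
      (algebraMap R _ u) omega (star omega))
    (h3 : s3 = B * r3 (c.map (algebraMap R (QuadraticAlgebra R a b))) (algebraMap R _ T)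
      (algebraMap R _ u) omega (star omega)) :
    F c s0.im s1.im s2.im s3.im = 0 := by
  have hrel := rel_quad (a := a) (b := b) c T hf hb ha
  set ι := algebraMap R (QuadraticAlgebra R a b) with hι
  set w : QuadraticAlgebra R a b := omega with hw
  have hst : ∀ x : R, starRingEnd (QuadraticAlgebra R a b) (ι x) = ι x := by
    intro x
    rw [hι]
    show star _ = _
    ext <;> simp
  have hstw : starRingEnd (QuadraticAlgebra R a b) w = star w := rfl
  have hstw' : starRingEnd (QuadraticAlgebra R a b) (star w) = w := star_star w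
  have hcst : (c.map ι).map (starRingEnd (QuadraticAlgebra R a b)) = c.map ι := by
    unfold Co.map
    simp only [hst]
  have hthird := F_third hrel (ι u)
  have key : ∀ z : QuadraticAlgebra R a b, z - star z = (w - star w) * ι z.im := by
    intro z
    rw [sub_star, Algebra.smul_def, mul_comm]
  have e : ∀ (s r r' : QuadraticAlgebra R a b), s = B * r →
      starRingEnd (QuadraticAlgebra R a b) r = r' →
      B * r - bb (c.map ι) (ι T) (ι u) (star w) w * r' = (w - star w) * ι s.im := by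
    intro s r r' hs hr
    rw [← key s, hs]
    congr 1
    have : star (B * r) = starRingEnd (QuadraticAlgebra R a b) (B * r) := rfl
    rw [this, map_mul, hr, hB, map_bb, hcst, hst, hst, hstw, hstw']
  rw [← hB, e s0 _ _ h0 (by rw [map_r0, hcst, hst, hst, hstw, hstw']),
    e s1 _ _ h1 (by rw [map_r1, hcst, hst, hst, hstw, hstw']),
    e s2 _ _ h2 (by rw [map_r2, hcst, hst, hst, hstw, hstw']),
    e s3 _ _ h3 (by rw [map_r3, hcst, hst, hst, hstw, hstw']), F_smul] at hthird
  have hdis : (w - star w) ^ 2 = ι (dis c T) := by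
    rw [← dis_eq hrel]
    unfold dis Co.map
    simp only [map_add, map_mul, map_pow, map_sub, map_ofNat]
  have hF : ι (F c s0.im s1.im s2.im s3.im) = F (c.map ι) (ι s0.im) (ι s1.im) (ι s2.im)
      (ι s3.im) := by
    unfold F Co.map
    simp only [map_add, map_mul, map_pow]
  have hfin : ι (dis c T ^ 2 * F c s0.im s1.im s2.im s3.im) = 0 := by
    rw [map_mul, map_pow, ← hdis, hF]
    linear_combination (w - star w) * hthird
  have hz := (map_eq_zero_iff ι QuadraticAlgebra.algebraMap_injective).1 hfin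
  exact (mul_eq_zero.1 hz).resolve_left (pow_ne_zero 2 hd)

end quad

section main

variable {K : Type u} [Field K]

lemma map_dis (φ : S →+* S') (c : Co S) (T : S) : φ (dis c T) = dis (c.map φ) (φ T) := by
  unfold dis Co.map
  simp only [map_add, map_mul, map_pow, map_sub, map_ofNat]

lemma map_as (φ : S →+* S') (c : Co S) (T : S) : φ (as c T) = as (c.map φ) (φ T) := by
  unfold as dis Co.map
  simp only [map_add, map_mul, map_pow, map_sub, map_ofNat]

lemma map_n1 (φ : S →+* S') (c : Co S) (T : S) : φ (n1 c T) = n1 (c.map φ) (φ T) := by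
  unfold n1 as dis Co.map
  simp only [map_add, map_mul, map_pow, map_sub, map_ofNat]

lemma map_F (φ : S →+* S') (c : Co S) (x y z w : S) :
    φ (F c x y z w) = F (c.map φ) (φ x) (φ y) (φ z) (φ w) := by
  unfold F Co.map
  simp only [map_add, map_mul, map_pow]

end main

section ev

open QuadraticAlgebra

variable {R : Type*} [CommRing R] {L : Type*} [CommRing L]

lemma map_v1 {S S' : Type*} [CommRing S] [CommRing S'] (φ : S →+* S') (x y : S) :
    φ (v1 x y) = v1 (φ x) (φ y) := by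
  unfold v1
  simp only [map_sub]

/-- evaluation of the quadratic algebra -/
def psi {a b : R} (ev : R →+* L) (t : L) (h : t * t = ev a + ev b * t) :
    QuadraticAlgebra R a b →+* L where
  toFun z := ev z.re + ev z.im * t
  map_zero' := by simp
  map_one' := by simp
  map_add' x y := by simp; ring
  map_mul' x y := by
    simp only [re_mul, im_mul, map_add, map_mul]
    linear_combination (- ev x.im * ev y.im) * h

lemma psi_map {a b : R} {ev : R →+* L} {t : L} (h : t * t = ev a + ev b * t) (x : R) :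
    psi ev t h (algebraMap R _ x) = ev x := by
  show ev x + ev 0 * t = _
  simp

lemma psi_omega {a b : R} {ev : R →+* L} {t : L} (h : t * t = ev a + ev b * t) :
    psi ev t h omega = t := by
  show ev 0 + ev 1 * t = _
  simp

lemma psi_star {a b : R} {ev : R →+* L} {t t' : L} (h : t * t = ev a + ev b * t)
    (h2 : t' = ev b - t) : psi ev t h (star omega) = t' := by
  rw [star_omega, map_sub, psi_map, psi_omega, h2]

lemma psi_co {a b : R} {ev : R →+* L} {t : L} (h : t * t = ev a + ev b * t) (c : Co R) :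
    (c.map (algebraMap R (QuadraticAlgebra R a b))).map (psi ev t h) = c.map ev := by
  unfold Co.map
  simp only [psi_map]

lemma star_map {a b : R} (x : R) :
    starRingEnd (QuadraticAlgebra R a b) (algebraMap R _ x) = algebraMap R _ x := by
  show star _ = _
  ext1 <;> simp

lemma star_co {a b : R} (c : Co R) :
    (c.map (algebraMap R (QuadraticAlgebra R a b))).map
      (starRingEnd (QuadraticAlgebra R a b)) =
      c.map (algebraMap R (QuadraticAlgebra R a b)) := by
  unfold Co.map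
  simp only [star_map]

lemma star_w (a b : R) :
    starRingEnd (QuadraticAlgebra R a b) omega = star omega := rfl

lemma star_w' (a b : R) :
    starRingEnd (QuadraticAlgebra R a b) (star omega) = omega :=
  star_star (omega : QuadraticAlgebra R a b)

lemma eval_im {a b : R} {ev : R →+* L} (c : Co R) (T u : R)
    (t t' : L) (h : t * t = ev a + ev b * t) (h2 : t' = ev b - t)
    (z z' : QuadraticAlgebra R a b)
    (B : QuadraticAlgebra R a b)
    (hB : B = bb (c.map (algebraMap R (QuadraticAlgebra R a b))) (algebraMap R _ T)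
      (algebraMap R _ u) omega (star omega))
    (hz : starRingEnd _ z = z') :
    bb (c.map ev) (ev T) (ev u) t t' * psi ev t h z -
    bb (c.map ev) (ev T) (ev u) t' t * psi ev t h z' = (t - t') * ev (B * z).im := by
  have key : B * z - star (B * z) = (omega - star omega) * algebraMap R _ (B * z).im := by
    rw [sub_star, Algebra.smul_def, mul_comm]
  have hBst : starRingEnd (QuadraticAlgebra R a b) B =
      bb (c.map (algebraMap R (QuadraticAlgebra R a b))) (algebraMap R _ T)
      (algebraMap R _ u) (star omega) omega := by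
    rw [hB, map_bb, star_co, star_map, star_map, star_w, star_w']
  have h5 : star (B * z) = starRingEnd _ B * z' := by
    rw [← hz, ← map_mul]; rfl
  rw [h5] at key
  have hψB : psi ev t h B = bb (c.map ev) (ev T) (ev u) t t' := by
    rw [hB, map_bb, psi_co, psi_map, psi_map, psi_omega, psi_star h h2]
  have hψB' : psi ev t h (starRingEnd (QuadraticAlgebra R a b) B) =
      bb (c.map ev) (ev T) (ev u) t' t := by
    rw [hBst, map_bb, psi_co, psi_map, psi_map, psi_omega, psi_star h h2]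
  have h6 := congrArg (psi ev t h) key
  rw [RingHom.map_sub, RingHom.map_mul, RingHom.map_mul, RingHom.map_mul, RingHom.map_sub,
    psi_map, psi_omega, psi_star h h2, hψB, hψB'] at h6
  exact h6

lemma exists_quad {L : Type*} [Field L] [IsAlgClosed L] (a b : L) :
    ∃ t : L, t * t = a + b * t := by
  obtain ⟨t, ht⟩ := IsAlgClosed.exists_root
    (X ^ 2 - C b * X - C a : L[X]) (by
      have : (X ^ 2 - C b * X - C a : L[X]).degree = 2 := by
        compute_degree!
      rw [this]
      norm_num)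
  refine ⟨t, ?_⟩
  simp only [IsRoot.def, eval_sub, eval_mul, eval_pow, eval_X, eval_C] at ht
  linear_combination ht

lemma flat_map {S S' : Type*} [CommRing S] [CommRing S'] (φ : S →+* S') {c : Co S} (h : Flat c) :
    Flat (c.map φ) := by
  refine ⟨?_, ?_, ?_⟩
  · show φ c.al = 0
    rw [h.1, map_zero]
  · show φ c.be = 0
    rw [h.2.1, map_zero]
  · show φ c.ka = 0
    rw [h.2.2, map_zero]

lemma rel_theta {c : Co R} (hf : Flat c) {T a b : R} {ev : R →+* L}
    (ha : c.a0 + c.a1 * T + c.a3 * T ^ 2 + c.k0 * T ^ 3 = - a) (hb : c.l0 + c.l1 * T = - b)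
    {t t' : L} (ht : t * t = ev a + ev b * t) (ht' : t' = ev b - t) :
    Rel (c.map ev) (ev T) t t' := by
  have ha' := congrArg ev ha
  have hb' := congrArg ev hb
  simp only [map_add, map_mul, map_pow, map_neg] at ha' hb'
  refine ⟨flat_map ev hf, ?_, ?_⟩
  · show ev c.l0 + ev c.l1 * ev T = - t - t'
    rw [ht']
    linear_combination hb'
  · show ev c.a0 + ev c.a1 * ev T + ev c.a3 * ev T ^ 2 + ev c.k0 * ev T ^ 3 = t * t'
    rw [ht']
    linear_combination ha' + ht

/-- values at `θ` of the main construction -/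
lemma values {c : Co R} (hf : Flat c) {T a b u : R} {ev : R →+* L}
    (ha : c.a0 + c.a1 * T + c.a3 * T ^ 2 + c.k0 * T ^ 3 = - a) (hb : c.l0 + c.l1 * T = - b)
    {t t' : L} (ht : t * t = ev a + ev b * t) (ht' : t' = ev b - t) (hu : ev u = 0)
    {B : QuadraticAlgebra R a b}
    (hB : B = bb (c.map (algebraMap R (QuadraticAlgebra R a b))) (algebraMap R _ T)
      (algebraMap R _ u) omega (star omega)) {z z' : QuadraticAlgebra R a b}
    (hz : starRingEnd _ z = z') {y y' : L} (hy : psi ev t ht z = y)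
    (hy' : psi ev t ht z' = y') :
    (t - t') * ev (B * z).im = - (ev c.k0 * (t - t') ^ 3) *
      n1 (c.map ev) (ev T) ^ 2 * (y + y') := by
  have hrel := rel_theta hf ha hb ht ht'
  rw [← eval_im c T u t t' ht ht' z z' B hB hz, hu, bb_zero hrel, bb_zero hrel.symm,
    hy, hy']
  have : (c.map ev).k0 = ev c.k0 := rfl
  rw [this]
  ring

lemma star_r0 {a b : R} (c : Co R) (T u : R) :
    starRingEnd _ (r0 (c.map (algebraMap R (QuadraticAlgebra R a b)))
      (algebraMap R _ T) (algebraMap R _ u) omega (star omega)) =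
    r0 (c.map (algebraMap R (QuadraticAlgebra R a b)))
      (algebraMap R _ T) (algebraMap R _ u) (star omega) omega := by
  rw [map_r0, star_co, star_map, star_map, star_w, star_w']

lemma psi_r0 {a b : R} (c : Co R) (T u : R) {ev : R →+* L} {t t' : L}
    (ht : t * t = ev a + ev b * t) (ht' : t' = ev b - t) :
    psi ev t ht (r0 (c.map (algebraMap R (QuadraticAlgebra R a b)))
      (algebraMap R _ T) (algebraMap R _ u) omega (star omega)) =
    r0 (c.map ev) (ev T) (ev u) t t' := by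
  rw [map_r0, psi_co, psi_map, psi_map, psi_omega, psi_star ht ht']

lemma psi_r0' {a b : R} (c : Co R) (T u : R) {ev : R →+* L} {t t' : L}
    (ht : t * t = ev a + ev b * t) (ht' : t' = ev b - t) :
    psi ev t ht (r0 (c.map (algebraMap R (QuadraticAlgebra R a b)))
      (algebraMap R _ T) (algebraMap R _ u) (star omega) omega) =
    r0 (c.map ev) (ev T) (ev u) t' t := by
  rw [map_r0, psi_co, psi_map, psi_map, psi_omega, psi_star ht ht']

lemma star_r1 {a b : R} (c : Co R) (T u : R) :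
    starRingEnd _ (r1 (c.map (algebraMap R (QuadraticAlgebra R a b)))
      (algebraMap R _ T) (algebraMap R _ u) omega (star omega)) =
    r1 (c.map (algebraMap R (QuadraticAlgebra R a b)))
      (algebraMap R _ T) (algebraMap R _ u) (star omega) omega := by
  rw [map_r1, star_co, star_map, star_map, star_w, star_w']

lemma psi_r1 {a b : R} (c : Co R) (T u : R) {ev : R →+* L} {t t' : L}
    (ht : t * t = ev a + ev b * t) (ht' : t' = ev b - t) :
    psi ev t ht (r1 (c.map (algebraMap R (QuadraticAlgebra R a b)))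
      (algebraMap R _ T) (algebraMap R _ u) omega (star omega)) =
    r1 (c.map ev) (ev T) (ev u) t t' := by
  rw [map_r1, psi_co, psi_map, psi_map, psi_omega, psi_star ht ht']

lemma psi_r1' {a b : R} (c : Co R) (T u : R) {ev : R →+* L} {t t' : L}
    (ht : t * t = ev a + ev b * t) (ht' : t' = ev b - t) :
    psi ev t ht (r1 (c.map (algebraMap R (QuadraticAlgebra R a b)))
      (algebraMap R _ T) (algebraMap R _ u) (star omega) omega) =
    r1 (c.map ev) (ev T) (ev u) t' t := by
  rw [map_r1, psi_co, psi_map, psi_map, psi_omega, psi_star ht ht']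

lemma star_r3 {a b : R} (c : Co R) (T u : R) :
    starRingEnd _ (r3 (c.map (algebraMap R (QuadraticAlgebra R a b)))
      (algebraMap R _ T) (algebraMap R _ u) omega (star omega)) =
    r3 (c.map (algebraMap R (QuadraticAlgebra R a b)))
      (algebraMap R _ T) (algebraMap R _ u) (star omega) omega := by
  rw [map_r3, star_co, star_map, star_map, star_w, star_w']

lemma psi_r3 {a b : R} (c : Co R) (T u : R) {ev : R →+* L} {t t' : L}
    (ht : t * t = ev a + ev b * t) (ht' : t' = ev b - t) :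
    psi ev t ht (r3 (c.map (algebraMap R (QuadraticAlgebra R a b)))
      (algebraMap R _ T) (algebraMap R _ u) omega (star omega)) =
    r3 (c.map ev) (ev T) (ev u) t t' := by
  rw [map_r3, psi_co, psi_map, psi_map, psi_omega, psi_star ht ht']

lemma psi_r3' {a b : R} (c : Co R) (T u : R) {ev : R →+* L} {t t' : L}
    (ht : t * t = ev a + ev b * t) (ht' : t' = ev b - t) :
    psi ev t ht (r3 (c.map (algebraMap R (QuadraticAlgebra R a b)))
      (algebraMap R _ T) (algebraMap R _ u) (star omega) omega) =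
    r3 (c.map ev) (ev T) (ev u) t' t := by
  rw [map_r3, psi_co, psi_map, psi_map, psi_omega, psi_star ht ht']

lemma star_av {a b : R} (c : Co R) (T u : R) :
    starRingEnd _ (av (c.map (algebraMap R (QuadraticAlgebra R a b)))
      (algebraMap R _ T) (algebraMap R _ u) omega (star omega)) =
    av (c.map (algebraMap R (QuadraticAlgebra R a b)))
      (algebraMap R _ T) (algebraMap R _ u) (star omega) omega := by
  rw [map_av, star_co, star_map, star_map, star_w, star_w']

lemma psi_av {a b : R} (c : Co R) (T u : R) {ev : R →+* L} {t t' : L}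
    (ht : t * t = ev a + ev b * t) (ht' : t' = ev b - t) :
    psi ev t ht (av (c.map (algebraMap R (QuadraticAlgebra R a b)))
      (algebraMap R _ T) (algebraMap R _ u) omega (star omega)) =
    av (c.map ev) (ev T) (ev u) t t' := by
  rw [map_av, psi_co, psi_map, psi_map, psi_omega, psi_star ht ht']

lemma psi_av' {a b : R} (c : Co R) (T u : R) {ev : R →+* L} {t t' : L}
    (ht : t * t = ev a + ev b * t) (ht' : t' = ev b - t) :
    psi ev t ht (av (c.map (algebraMap R (QuadraticAlgebra R a b)))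
      (algebraMap R _ T) (algebraMap R _ u) (star omega) omega) =
    av (c.map ev) (ev T) (ev u) t' t := by
  rw [map_av, psi_co, psi_map, psi_map, psi_omega, psi_star ht ht']

section vals

variable [IsDomain L] {c : Co R} (hf : Flat c) {T a b u : R} {ev : R →+* L}
    (ha : c.a0 + c.a1 * T + c.a3 * T ^ 2 + c.k0 * T ^ 3 = - a) (hb : c.l0 + c.l1 * T = - b)
    {t t' : L} (ht : t * t = ev a + ev b * t)
    (ht' : t' = ev b - t) (hu : ev u = 0)
    {B : QuadraticAlgebra R a b}
    (hB : B = bb (c.map (algebraMap R (QuadraticAlgebra R a b))) (algebraMap R _ T)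
      (algebraMap R _ u) omega (star omega)) (htt : t - t' ≠ 0)

include hf ha hb ht ht' hu hB htt

lemma val_r0 : ev (B * r0 (c.map (algebraMap R (QuadraticAlgebra R a b)))
    (algebraMap R _ T) (algebraMap R _ u) omega (star omega)).im = 0 := by
  have hrel := rel_theta hf ha hb ht ht'
  have h1 := values hf ha hb ht ht' hu hB (star_r0 c T u) (psi_r0 c T u ht ht')
    (psi_r0' c T u ht ht')
  rw [hu, r0_zero hrel, r0_zero hrel.symm] at h1
  refine (mul_eq_zero.1 (h1.trans ?_)).resolve_left htt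
  ring

lemma val_r1 : ev (B * r1 (c.map (algebraMap R (QuadraticAlgebra R a b)))
    (algebraMap R _ T) (algebraMap R _ u) omega (star omega)).im = 0 := by
  have hrel := rel_theta hf ha hb ht ht'
  have h1 := values hf ha hb ht ht' hu hB (star_r1 c T u) (psi_r1 c T u ht ht')
    (psi_r1' c T u ht ht')
  rw [hu, r1_zero hrel, r1_zero hrel.symm] at h1
  refine (mul_eq_zero.1 (h1.trans ?_)).resolve_left htt
  ring

lemma val_r3 (hk : ev c.k0 ≠ 0) (hn : n1 (c.map ev) (ev T) ≠ 0) :
    ev (B * r3 (c.map (algebraMap R (QuadraticAlgebra R a b)))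
    (algebraMap R _ T) (algebraMap R _ u) omega (star omega)).im ≠ 0 := by
  have hrel := rel_theta hf ha hb ht ht'
  have h1 := values hf ha hb ht ht' hu hB (star_r3 c T u) (psi_r3 c T u ht ht')
    (psi_r3' c T u ht ht')
  rw [hu, sum_zero hrel] at h1
  intro h0
  rw [h0, mul_zero] at h1
  have h2 : ev c.k0 * (t - t') ^ 3 * n1 (c.map ev) (ev T) ^ 3 = 0 := by
    linear_combination h1
  exact mul_ne_zero (mul_ne_zero hk (pow_ne_zero 3 htt)) (pow_ne_zero 3 hn) h2

lemma val_g (hk : ev c.k0 ≠ 0) (hn : n1 (c.map ev) (ev T) ≠ 0)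
    (has : as (c.map ev) (ev T) ≠ 0) :
    ev (B * (- av (c.map (algebraMap R (QuadraticAlgebra R a b)))
    (algebraMap R _ T) (algebraMap R _ u) omega (star omega) * v1 omega (star omega) *
      omega)).im ≠ 0 := by
  have hrel := rel_theta hf ha hb ht ht'
  have e1 : starRingEnd (QuadraticAlgebra R a b)
      (- av (c.map (algebraMap R (QuadraticAlgebra R a b)))
    (algebraMap R _ T) (algebraMap R _ u) omega (star omega) * v1 omega (star omega) *
      omega) = - av (c.map (algebraMap R (QuadraticAlgebra R a b)))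
    (algebraMap R _ T) (algebraMap R _ u) (star omega) omega * v1 (star omega) omega *
      star omega := by
    rw [map_mul, map_mul, map_neg, star_av, map_v1, star_w, star_w']
  have e2 : psi ev t ht (- av (c.map (algebraMap R (QuadraticAlgebra R a b)))
    (algebraMap R _ T) (algebraMap R _ u) omega (star omega) * v1 omega (star omega) *
      omega) = - av (c.map ev) (ev T) (ev u) t t' * v1 t t' * t := by
    rw [map_mul, map_mul, map_neg, psi_av c T u ht ht', map_v1, psi_omega, psi_star ht ht']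
  have e3 : psi ev t ht (- av (c.map (algebraMap R (QuadraticAlgebra R a b)))
    (algebraMap R _ T) (algebraMap R _ u) (star omega) omega * v1 (star omega) omega *
      star omega) = - av (c.map ev) (ev T) (ev u) t' t * v1 t' t * t' := by
    rw [map_mul, map_mul, map_neg, psi_av' c T u ht ht', map_v1, psi_omega, psi_star ht ht']
  have h1 := values hf ha hb ht ht' hu hB e1 e2 e3
  rw [hu, av_zero hrel, av_zero hrel.symm] at h1
  intro h0
  rw [h0, mul_zero] at h1
  unfold v1 at h1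
  have h2 : ev c.k0 * (t - t') ^ 5 * n1 (c.map ev) (ev T) ^ 2 * as (c.map ev) (ev T) = 0 := by
    linear_combination - h1
  exact mul_ne_zero (mul_ne_zero (mul_ne_zero hk (pow_ne_zero 5 htt)) (pow_ne_zero 2 hn)) has h2

end vals

lemma r2_eq (c : Co R) (T u x y : R) :
    r2 c T u x y = u * (- av c T u x y * v1 x y * x) := by
  unfold r2 v2 v1
  ring

lemma im_r2 {T a b u : R} (c : Co R) (B : QuadraticAlgebra R a b) :
    (B * r2 (c.map (algebraMap R (QuadraticAlgebra R a b)))
      (algebraMap R _ T) (algebraMap R _ u) omega (star omega)).im =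
      u * (B * (- av (c.map (algebraMap R (QuadraticAlgebra R a b)))
    (algebraMap R _ T) (algebraMap R _ u) omega (star omega) * v1 omega (star omega) *
      omega)).im := by
  rw [r2_eq, mul_left_comm, ← Algebra.smul_def, im_smul, smul_eq_mul]

lemma theta_ne [IsDomain L] {c : Co R} (hf : Flat c) {T a b : R} {ev : R →+* L}
    (ha : c.a0 + c.a1 * T + c.a3 * T ^ 2 + c.k0 * T ^ 3 = - a) (hb : c.l0 + c.l1 * T = - b)
    {t t' : L} (ht : t * t = ev a + ev b * t) (ht' : t' = ev b - t)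
    (hθ : ev (dis c T) * ev (n1 c T) * ev (as c T) ≠ 0) :
    t - t' ≠ 0 ∧ n1 (c.map ev) (ev T) ≠ 0 ∧ as (c.map ev) (ev T) ≠ 0 := by
  have hrel := rel_theta hf ha hb ht ht'
  rw [map_dis, map_n1, map_as] at hθ
  refine ⟨?_, ?_, ?_⟩
  · intro h0
    rw [dis_eq hrel, h0] at hθ
    simp at hθ
  · exact right_ne_zero_of_mul (left_ne_zero_of_mul hθ)
  · exact right_ne_zero_of_mul hθ

/-- the main construction in the case of three conjugate lines -/
lemma good_b_core [IsDomain R] [IsDomain L] {c : Co R} (hf : Flat c) {T a b u : R} {ev : R →+* L}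
    (ha : c.a0 + c.a1 * T + c.a3 * T ^ 2 + c.k0 * T ^ 3 = - a) (hb : c.l0 + c.l1 * T = - b)
    {t t' : L} (ht : t * t = ev a + ev b * t)
    (ht' : t' = ev b - t) (hu0 : u ≠ 0) (hu : ev u = 0) (hk : ev c.k0 ≠ 0)
    (hθ : ev (dis c T) * ev (n1 c T) * ev (as c T) ≠ 0) :
    ∃ f0 f1 f2 f3 : R, F c f0 f1 f2 f3 = 0 ∧ (f0 ≠ 0 ∨ f1 ≠ 0 ∨ f2 ≠ 0) ∧
    ev f0 = 0 ∧ ev f1 = 0 ∧ ev f2 = 0 ∧ ev f3 ≠ 0 := by
  have hdX : dis c T ≠ 0 := by
    intro h0
    apply hθ
    rw [h0, map_zero, zero_mul, zero_mul]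
  obtain ⟨htt, hn0, ha0⟩ := theta_ne hf ha hb ht ht' hθ
  obtain ⟨B, hB⟩ : ∃ B : QuadraticAlgebra R a b,
    B = bb (c.map (algebraMap R (QuadraticAlgebra R a b))) (algebraMap R _ T)
      (algebraMap R _ u) omega (star omega) := ⟨_, rfl⟩
  have hF := descent c T u hf hb ha hdX hB rfl rfl rfl rfl
  have w0 := val_r0 hf ha hb ht ht' hu hB htt
  have w1 := val_r1 hf ha hb ht ht' hu hB htt
  have w3 := val_r3 hf ha hb ht ht' hu hB htt hk hn0
  have wg := val_g hf ha hb ht ht' hu hB htt hk hn0 ha0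
  have hg := im_r2 (T := T) (u := u) c B
  refine ⟨_, _, _, _, hF, Or.inr (Or.inr ?_), w0, w1, ?_, w3⟩
  · rw [hg]
    refine mul_ne_zero hu0 ?_
    intro h0
    rw [h0, map_zero] at wg
    exact wg rfl
  · rw [hg, map_mul, hu, zero_mul]

end ev

section goodb

lemma exists_neg {R : Type*} [CommRing R] (x : R) : ∃ a : R, x = - a := ⟨-x, by ring⟩

variable {K : Type u} [Field K]

lemma good_b (c : Co K) (hf : Flat c) (hk : c.k0 ≠ 0)
    (h : dis (c.map C) X * n1 (c.map C) X * as (c.map C) X ≠ (0 : K[X])) : Good c := by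
  obtain ⟨θ, hθ⟩ := exists_aeval_ne h
  rw [map_mul, map_mul] at hθ
  have hint : IsIntegral K θ := Algebra.IsIntegral.isIntegral θ
  obtain ⟨u, hu0, huθ⟩ : ∃ s : K[X], s ≠ 0 ∧ aeval θ s = 0 :=
    ⟨minpoly K θ, minpoly.ne_zero hint, minpoly.aeval K θ⟩
  have hk' : aeval θ (c.map C).k0 ≠ 0 := by
    show aeval θ (C c.k0) ≠ 0
    rw [aeval_C]
    intro h0
    exact hk ((map_eq_zero _).1 h0)
  let ev : K[X] →+* AlgebraicClosure K := (aeval θ).toRingHom
  obtain ⟨a, ha⟩ := exists_neg ((c.map C).a0 + (c.map C).a1 * X + (c.map C).a3 * X ^ 2 +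
      (c.map C).k0 * X ^ 3)
  obtain ⟨b, hb⟩ := exists_neg ((c.map C).l0 + (c.map C).l1 * X)
  obtain ⟨t, ht⟩ := exists_quad (ev a) (ev b)
  obtain ⟨f0, f1, f2, f3, h1, h2, h3, h4, h5, h6⟩ :=
    good_b_core (ev := ev) (flat_map (C : K →+* K[X]) hf) ha hb ht rfl hu0 huθ hk' hθ
  exact ⟨f0, f1, f2, f3, h1, h2, θ, h3, h4, h5, h6⟩

end goodb

section degenerate

variable {K : Type u} [Field K]

lemma coeff_as (c : Co K) : (as (c.map C) (X : K[X])).coeff 4 = - 3 * c.k0 ^ 2 := by
  unfold as dis Co.map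
  simp only
  compute_degree
  · ring
  all_goals norm_num

lemma coeff_dis (c : Co K) : (dis (c.map C) (X : K[X])).coeff 3 = - 4 * c.k0 := by
  unfold dis Co.map
  simp only
  compute_degree
  · ring
  all_goals norm_num

lemma coeff_n1 (c : Co K) : (n1 (c.map C) (X : K[X])).coeff 6 = - 2 * c.k0 ^ 3 := by
  unfold n1 as dis Co.map
  simp only
  compute_degree
  · ring
  all_goals norm_num

lemma as_eq (c : Co K) : as (c.map C) (X : K[X]) = C (- 3 * c.k0 ^ 2) * X ^ 4 +
    C (c.k0 * (c.l1 ^ 2 - 4 * c.a3)) * X ^ 3 + C (3 * c.k0 * (c.l0 * c.l1 - 2 * c.a1)) * X ^ 2 +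
    C (3 * c.k0 * (c.l0 ^ 2 - 4 * c.a0)) * X +
    C (c.a1 ^ 2 - c.l0 * c.l1 * c.a1 + c.l1 ^ 2 * c.a0 + c.a3 * c.l0 ^ 2 - 4 * c.a0 * c.a3) := by
  unfold as dis Co.map
  simp only [C_add, C_mul, C_sub, C_pow, C_neg, C_ofNat]
  ring

lemma coeff_three (e4 e3 e2 e1 e0 : K) :
    (C e4 * X ^ 4 + C e3 * X ^ 3 + C e2 * X ^ 2 + C e1 * X + C e0 : K[X]).coeff 3 = e3 := by
  simp [coeff_X, coeff_C]

lemma coeff_nil (e4 e3 e2 e1 e0 : K) :
    (C e4 * X ^ 4 + C e3 * X ^ 3 + C e2 * X ^ 2 + C e1 * X + C e0 : K[X]).coeff 0 = e0 := by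
  simp

/-- a cuspidal plane section in characteristic 2 -/
lemma good_char2 [Finite K] (c : Co K) (hf : Flat c) (hk : c.k0 ≠ 0) (h2 : (2 : K) = 0)
    (hl0 : c.l0 = 0) (hl1 : c.l1 = 0) : Good c := by
  have hchar : ringChar K = 2 := by
    have hdvd : ringChar K ∣ 2 := (ringChar.spec K 2).1 (by exact_mod_cast h2)
    rcases (Nat.dvd_prime Nat.prime_two).1 hdvd with h | h
    · exact absurd h (CharP.ringChar_ne_one)
    · exact h
  obtain ⟨α, hα⟩ := FiniteField.isSquare_of_char_two hchar c.a0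
  obtain ⟨β, hβ⟩ := FiniteField.isSquare_of_char_two hchar c.a1
  obtain ⟨κ, hκ⟩ := FiniteField.isSquare_of_char_two hchar c.a3
  obtain ⟨ε, hε⟩ := FiniteField.isSquare_of_char_two hchar c.k0
  have h2' : (2 : K[X]) = 0 := by
    have := congrArg (C : K → K[X]) h2
    rwa [C_ofNat, C_0] at this
  refine ⟨X ^ 3, X, 0, C α * X ^ 3 + C β * X ^ 2 + C κ * X + C ε, ?_, Or.inr (Or.inl X_ne_zero),
    0, by simp, by simp, by simp, ?_⟩
  · unfold F Co.map
    simp only
    rw [hl0, hl1, hf.1, hf.2.1, hf.2.2, hα, hβ, hκ, hε]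
    simp only [C_mul, C_0]
    linear_combination (X ^ 3 * (C α ^ 2 * X ^ 6 + C β ^ 2 * X ^ 4 + C κ ^ 2 * X ^ 2 + C ε ^ 2 +
      C α * C β * X ^ 5 + C α * C κ * X ^ 4 + C α * C ε * X ^ 3 + C β * C κ * X ^ 3 +
      C β * C ε * X ^ 2 + C κ * C ε * X)) * h2'
  · simp only [map_add, map_mul, map_pow, aeval_C, aeval_X]
    have : ε ≠ 0 := by
      rintro rfl
      exact hk (by rw [hε, mul_zero])
    simpa using this

/-- a cuspidal plane section in characteristic 3 -/
lemma good_char3 [Finite K] (c : Co K) (hf : Flat c) (hk : c.k0 ≠ 0) (h3 : (3 : K) = 0)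
    (has : as (c.map C) (X : K[X]) = 0) : Good c := by
  have hchar : CharP K 3 := by
    have hdvd : ringChar K ∣ 3 := (ringChar.spec K 3).1 (by exact_mod_cast h3)
    rcases (Nat.dvd_prime Nat.prime_three).1 hdvd with h | h
    · exact absurd h (CharP.ringChar_ne_one)
    · rw [← h]; infer_instance
  have hcube : ∀ x : K, ∃ y : K, y ^ 3 = x := by
    intro x
    have : Fact (Nat.Prime 3) := ⟨Nat.prime_three⟩
    obtain ⟨y, hy⟩ := (bijective_frobenius K 3).2 x
    exact ⟨y, hy⟩
  have e3 : c.k0 * (c.l1 ^ 2 - 4 * c.a3) = 0 := by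
    rw [← coeff_three (- 3 * c.k0 ^ 2) (c.k0 * (c.l1 ^ 2 - 4 * c.a3))
      (3 * c.k0 * (c.l0 * c.l1 - 2 * c.a1)) (3 * c.k0 * (c.l0 ^ 2 - 4 * c.a0))
      (c.a1 ^ 2 - c.l0 * c.l1 * c.a1 + c.l1 ^ 2 * c.a0 + c.a3 * c.l0 ^ 2 - 4 * c.a0 * c.a3),
      ← as_eq, has, coeff_zero]
  have e0 : c.a1 ^ 2 - c.l0 * c.l1 * c.a1 + c.l1 ^ 2 * c.a0 + c.a3 * c.l0 ^ 2 -
      4 * c.a0 * c.a3 = 0 := by
    rw [← coeff_nil (- 3 * c.k0 ^ 2) (c.k0 * (c.l1 ^ 2 - 4 * c.a3))
      (3 * c.k0 * (c.l0 * c.l1 - 2 * c.a1)) (3 * c.k0 * (c.l0 ^ 2 - 4 * c.a0))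
      (c.a1 ^ 2 - c.l0 * c.l1 * c.a1 + c.l1 ^ 2 * c.a0 + c.a3 * c.l0 ^ 2 - 4 * c.a0 * c.a3),
      ← as_eq, has, coeff_zero]
  have ha3 : c.a3 = c.l1 ^ 2 := by
    have := (mul_eq_zero.1 e3).resolve_left hk
    linear_combination - this - c.a3 * h3
  have ha1 : c.a1 = - c.l0 * c.l1 := by
    have : (c.a1 + c.l0 * c.l1) ^ 2 = 0 := by
      rw [ha3] at e0
      linear_combination e0 + (c.l0 * c.l1 * c.a1 + c.l1 ^ 2 * c.a0) * h3
    have := pow_eq_zero_iff two_ne_zero |>.1 this
    linear_combination this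
  obtain ⟨e, he⟩ := hcube c.k0
  obtain ⟨k, hk'⟩ := hcube (c.a0 - c.l0 ^ 2)
  have ha0 : c.a0 = k ^ 3 + c.l0 ^ 2 := by rw [hk']; ring
  have h3' : (3 : K[X]) = 0 := by
    have := congrArg (C : K → K[X]) h3
    rwa [C_ofNat, C_0] at this
  have he0 : e ≠ 0 := by
    rintro rfl
    exact hk (by rw [← he]; ring)
  refine ⟨C e * X ^ 3, - X * (1 + C k * X ^ 2), 0,
    C e + C c.l0 * (C e * X ^ 3) + C c.l1 * (- X * (1 + C k * X ^ 2)), ?_, Or.inl ?_, 0, by simp,
    by simp, by simp, by simpa using he0⟩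
  · unfold F Co.map
    simp only
    rw [hf.1, hf.2.1, hf.2.2, ← he, ha3, ha1, ha0]
    simp only [C_mul, C_0, C_add, C_pow, C_neg]
    linear_combination ((C e * X ^ 3) * (C e * (C c.l0 * (C e * X ^ 3) +
      C c.l1 * (- X * (1 + C k * X ^ 2))) + (C c.l0 * (C e * X ^ 3) +
      C c.l1 * (- X * (1 + C k * X ^ 2))) ^ 2 - C c.l0 * C c.l1 * (C e * X ^ 3) *
      (- X * (1 + C k * X ^ 2))) - C e ^ 3 * X ^ 3 * (C k * X ^ 2 + C k ^ 2 * X ^ 4)) * h3'
  · exact mul_ne_zero (by simpa using he0) (pow_ne_zero 3 X_ne_zero)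

/-- three lines through the point (none over `K` needed) -/
lemma good_three [Finite K] (c : Co K) (hf : Flat c) (hk : c.k0 ≠ 0) : Good c := by
  by_cases h2 : (2 : K) = 0
  · by_cases hl : c.l0 = 0 ∧ c.l1 = 0
    · exact good_char2 c hf hk h2 hl.1 hl.2
    · have h2' : (2 : K[X]) = 0 := by
        have := congrArg (C : K → K[X]) h2
        rwa [C_ofNat, C_0] at this
      have hd : dis (c.map C) (X : K[X]) = (C c.l0 + C c.l1 * X) ^ 2 := by
        unfold dis Co.map
        simp only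
        linear_combination (- 2 * (C c.a0 + C c.a1 * X + C c.a3 * X ^ 2 + C c.k0 * X ^ 3)) * h2'
      have hlX : (C c.l0 + C c.l1 * X : K[X]) ≠ 0 := by
        intro h0
        apply hl
        have e0 := congrArg (fun p => Polynomial.coeff p 0) h0
        have e1 := congrArg (fun p => Polynomial.coeff p 1) h0
        simp at e0 e1
        exact ⟨e0, e1⟩
      have ha : as (c.map C) (X : K[X]) ≠ 0 := by
        intro h0
        have h4 := coeff_as c
        rw [h0, coeff_zero] at h4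
        have : c.k0 ^ 2 = 0 := by linear_combination h4 - c.k0 ^ 2 * h2
        exact hk (pow_eq_zero_iff two_ne_zero |>.1 this)
      have hn : n1 (c.map C) (X : K[X]) = (C c.l0 + C c.l1 * X) *
          (C c.k0 * (C c.l0 + C c.l1 * X) ^ 3 - C c.l1 * as (c.map C) (X : K[X])) := by
        unfold n1
        rw [hd]
        obtain ⟨a, ha⟩ : ∃ a : K[X], a = as (c.map C) (X : K[X]) := ⟨_, rfl⟩
        rw [← ha]
        unfold Co.map
        simp only
        linear_combination (a * (C c.a1 + 2 * C c.a3 * X + 3 * C c.k0 * X ^ 2)) * h2'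
      have hn0 : n1 (c.map C) (X : K[X]) ≠ 0 := by
        rw [hn]
        refine mul_ne_zero hlX ?_
        intro h0
        have h5 := sub_eq_zero.1 h0
        by_cases hl1 : c.l1 = 0
        · rw [hl1, C_0, zero_mul, zero_mul, add_zero, ← C_pow, ← C_mul, C_eq_zero] at h5
          have hl0 : c.l0 ≠ 0 := fun h => hl ⟨h, hl1⟩
          exact mul_ne_zero hk (pow_ne_zero 3 hl0) h5
        · have hdeg : (C c.k0 * (C c.l0 + C c.l1 * X) ^ 3 : K[X]).natDegree ≤ 3 := by
            compute_degree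
          have h6 := congrArg (fun p => Polynomial.coeff p 4) h5
          simp only [coeff_C_mul] at h6
          rw [coeff_as] at h6
          have h7 : (C c.k0 * (C c.l0 + C c.l1 * X) ^ 3 : K[X]).coeff 4 = 0 :=
            coeff_eq_zero_of_natDegree_lt (by omega)
          rw [coeff_C_mul] at h7
          rw [h7] at h6
          have h8 : c.l1 * c.k0 ^ 2 = 0 := by
            linear_combination h6 - c.l1 * c.k0 ^ 2 * h2
          exact mul_ne_zero hl1 (pow_ne_zero 2 hk) h8
      refine good_b c hf hk (mul_ne_zero (mul_ne_zero ?_ hn0) ha)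
      rw [hd]
      exact pow_ne_zero 2 hlX
  · have hd : dis (c.map C) (X : K[X]) ≠ 0 := by
      intro h0
      have h4 := coeff_dis c
      rw [h0, coeff_zero] at h4
      have : (2 : K) * 2 * c.k0 = 0 := by linear_combination h4
      exact mul_ne_zero (mul_ne_zero h2 h2) hk this
    have hn : n1 (c.map C) (X : K[X]) ≠ 0 := by
      intro h0
      have h4 := coeff_n1 c
      rw [h0, coeff_zero] at h4
      have : (2 : K) * c.k0 ^ 3 = 0 := by linear_combination h4
      exact mul_ne_zero h2 (pow_ne_zero 3 hk) this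
    by_cases has : as (c.map C) (X : K[X]) = 0
    · have h3 : (3 : K) = 0 := by
        by_contra h3
        have h4 := coeff_as c
        rw [has, coeff_zero] at h4
        have : (3 : K) * c.k0 ^ 2 = 0 := by linear_combination h4
        exact mul_ne_zero h3 (pow_ne_zero 2 hk) this
      exact good_char3 c hf hk h3 has
    · exact good_b c hf hk (mul_ne_zero (mul_ne_zero hd hn) has)

end degenerate

section all

variable {K : Type u} [Field K]

/-- all cases in normal form -/
lemma good_all [Finite K] (c : Co K)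
    (hs : ∀ ρ w : AlgebraicClosure K,
      ¬ (F (c.map (algebraMap K (AlgebraicClosure K))) 0 1 ρ w = 0 ∧
      Fx (c.map (algebraMap K (AlgebraicClosure K))) 0 1 ρ w = 0 ∧
      Fy (c.map (algebraMap K (AlgebraicClosure K))) 0 1 ρ w = 0 ∧
      Fz (c.map (algebraMap K (AlgebraicClosure K))) 0 1 ρ w = 0 ∧
      Fw (c.map (algebraMap K (AlgebraicClosure K))) 0 1 ρ w = 0)) : Good c := by
  by_cases hka : c.ka = 0
  · by_cases hk3 : c.k3 = 0
    · exact good_line c 0 1 (Or.inr one_ne_zero) (by rw [hka]; ring) (by rw [hk3]; ring)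
    · by_cases hne : c.al ≠ 0 ∨ c.be ≠ 0
      · exact good_cubic' c hka hne hk3
      · push Not at hne
        by_cases hk0 : c.k0 = 0
        · exact good_line c 1 0 (Or.inl one_ne_zero) (by rw [hne.1]; ring) (by rw [hk0]; ring)
        · exact good_three c ⟨hne.1, hne.2, hka⟩ hk0
  · have hka' : algebraMap K (AlgebraicClosure K) c.ka ≠ 0 := fun h => hka ((map_eq_zero _).1 h)
    obtain ⟨ρ, hρ⟩ := exists_quad
      (- algebraMap K (AlgebraicClosure K) c.al / algebraMap K (AlgebraicClosure K) c.ka)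
      (- algebraMap K (AlgebraicClosure K) c.be / algebraMap K (AlgebraicClosure K) c.ka)
    have hρ' : algebraMap K (AlgebraicClosure K) c.al + algebraMap K (AlgebraicClosure K) c.be * ρ +
      algebraMap K (AlgebraicClosure K) c.ka * ρ ^ 2 = 0 := by
      field_simp at hρ
      linear_combination hρ
    by_cases hk : algebraMap K (AlgebraicClosure K) c.k0 +
      algebraMap K (AlgebraicClosure K) c.k1 * ρ +
      algebraMap K (AlgebraicClosure K) c.k2 * ρ ^ 2 +
      algebraMap K (AlgebraicClosure K) c.k3 * ρ ^ 3 = 0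
    · by_cases hρK : ∃ t : K, algebraMap K (AlgebraicClosure K) t = ρ
      · obtain ⟨t, ht⟩ := hρK
        rw [← ht] at hρ' hk
        refine good_line c 1 t (Or.inl one_ne_zero) ?_ ?_
        · apply (algebraMap K (AlgebraicClosure K)).injective
          simp only [map_add, map_mul, map_pow, map_zero, map_one]
          linear_combination hρ'
        · apply (algebraMap K (AlgebraicClosure K)).injective
          simp only [map_add, map_mul, map_pow, map_zero, map_one]
          linear_combination hk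
      · push Not at hρK
        exact good_a c hka ρ hρ' hρK hk (hs ρ)
    · exact good_cubic c (Or.inr (Or.inr hka)) ρ hρ' hk

end all

end Pool.Agent.H241.CubicNF
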